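import Mathlib
import Pool.Agent.N491.HP.Space

/-!
# An infinite-dimensional Peano continuum all of whose subsets have trivial higher homotopy groups

There is a compact connected locally connected metric space `X` of infinite covering dimension such
that for every subset `M` of `X`, every base point in `M` and every `m ≥ 2`, the homotopy group
`π_m(M, x)` is trivial.  So for every `n ≥ 3` this `X` has the properties (A) and (B).

The space: a function `f` on the Hilbert cube, close to the first coordinate, no level set of which
contains a nonconstant path, is found by a category argument; `K = {f = 1/2}` separates two opposite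
faces and so is infinite-dimensional.  A map of the Cantor set onto `K` is extended to
`G : [0,1] → Hilbert cube`, and `X` is the image of `t ↦ (G t, dist(t, Cantor set))`.  The second
coordinate is a height whose zero level is `K` and whose other levels are countable; a map of a cube
into `X` is then constant on the components of the level sets of its height, and unicoherence of the
cube lets one contract it inside its own image.
-/

set_option autoImplicit false

namespace Pool.Agent.Results.MP_ac4f45_gt.AsphericalSubsets

/-- Lebesgue covering dimension at most `n`: every finite open cover has a finite open refinement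
such that each point lies in at most `n + 1` members. -/
def DimLE (X : Type) [TopologicalSpace X] (n : ℕ) : Prop :=
  ∀ (ι : Type) [Finite ι] (U : ι → Set X), (∀ i, IsOpen (U i)) → (⋃ i, U i) = Set.univ →
    ∃ (κ : Type) (_ : Finite κ) (V : κ → Set X), (∀ k, IsOpen (V k)) ∧ (⋃ k, V k) = Set.univ ∧
      (∀ k, ∃ i, V k ⊆ U i) ∧ ∀ x, Nat.card {k // x ∈ V k} ≤ n + 1

/-- **There is an infinite-dimensional Peano continuum all of whose subsets have trivial homotopy
groups in all degrees at least two.** -/
theorem result : ∃ (X : Type) (_ : MetricSpace X), CompactSpace X ∧ ConnectedSpace X ∧
    LocallyConnectedSpace X ∧ (∀ n : ℕ, ¬ DimLE X n) ∧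
    ∀ (M : Set X) (x : M) (m : ℕ), 2 ≤ m → Subsingleton (HomotopyGroup.Pi m M x) :=
  Pool.Agent.N491.HP.main_space

end Pool.Agent.Results.MP_ac4f45_gt.AsphericalSubsets
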